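import Pool.Agent.FS.StrictGap.Fin

/-! Equality for light pairs. -/

namespace Pool.Agent.FS.StrictLight

open Set Pool.Agent.FS.LightPairs Pool.Agent.FS.StrictGap

section
variable {X Y : Type} [Finite X] [PartialOrder X] [LinearOrder Y]

theorem top_case (R : Rich X Y) {p q d : X} (h : Inc p q) (hU : ∀ z, p < z → q < z)
    (ha : ∀ w, w < q → w < p ∨ w ≤ d) (hM : N Y q p + N Y p d ≤ N Y p q)
    (hM' : N Y p d ≤ N Y q p) :
    (∀ t, q < t → p < t) ∧ ∀ c, c < d → d < q → ¬ c < p → (∀ w, w < p → w < d) →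
      ¬ ∀ t, d < t → t = q ∨ p < t := by
  classical
  set S1 : Set (X ≃ Y) := {f | StrictMono (⇑f) ∧ f p < f q ∧ ∀ w, w < q → f w < f p} with hS1
  have m1 : ∀ f ∈ S1, (Equiv.swap p q).trans f ∈ {f : X ≃ Y | StrictMono (⇑f) ∧ f q < f p} := by
    rintro f ⟨hf, hpq, hw⟩
    refine ⟨swap_mono hf h hpq hw fun z hz => hf (hU z hz), ?_⟩
    simpa using hpq
  have h3 : N Y p q ≤ S1.ncard + N Y p d := by
    refine le_trans (ncard_le_ncard ?_ (toFinite _)) (ncard_union_le _ _)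
    rintro f ⟨hf, hpq⟩
    by_cases h4 : ∀ w, w < q → f w < f p
    · exact Or.inl ⟨hf, hpq, h4⟩
    · push Not at h4
      obtain ⟨w, hwq, hw⟩ := h4
      have hne : p ≠ w := fun hh => h.1 (hh ▸ hwq.le)
      have hlt : f p < f w := lt_of_le_of_ne hw fun hh => hne (f.injective hh)
      rcases ha w hwq with h5 | h5
      · exact absurd (hf h5) (not_lt.2 hw)
      · exact Or.inr ⟨hf, hlt.trans_le (hf.monotone h5)⟩
  constructor
  · intro t ht
    by_contra hc
    have hp : ¬ p ≤ t := fun hh => hc (lt_of_le_of_ne hh fun h4 => h.2 (h4 ▸ ht.le))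
    obtain ⟨g, hg, g1, -⟩ := R t t
    have g2 := g1 t p le_rfl hp
    have : S1.ncard < N Y q p := swap_lt p q _ _ m1 g ⟨hg, (hg ht).trans g2⟩ fun hh => by
      have := hh.1 ht
      simp only [Equiv.trans_apply, Equiv.swap_apply_right] at this
      rw [Equiv.swap_apply_of_ne_of_ne (fun hh => hp hh.ge) ht.ne'] at this
      exact lt_asymm this g2
    omega
  · intro c hcd hdq hcp hD hT
    have ic : Inc p c := lo h (hcd.trans hdq) hcp
    have id : Inc p d := lo h hdq fun hh => hcp (hcd.trans hh)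
    obtain ⟨g, hg, g1, -⟩ := R p p
    have g2 := g1 p c le_rfl ic.2
    have : S1.ncard < N Y p d := by
      refine swap_lt d p _ _ ?_ g ⟨hg, g2.trans (hg hcd)⟩ fun hh => ?_
      · rintro f ⟨hf, hpq, hw⟩
        refine ⟨swap_mono hf id.symm (hw d hdq) (fun w h1 => hf (hD w h1)) fun t ht => ?_, ?_⟩
        · rcases hT t ht with rfl | h1
          · exact hpq
          · exact hf h1
        · simpa using hw d hdq
      · have := hh.1 hcd
        simp only [Equiv.trans_apply, Equiv.swap_apply_left] at this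
        rw [Equiv.swap_apply_of_ne_of_ne hcd.ne ic.ne.symm] at this
        exact lt_asymm this g2
    omega

end

/-- The equality case with one largest obstruction. -/
def Top {X : Type} [PartialOrder X] (M : X → X → Prop) : Prop :=
  ∀ p q d, Inc p q → M p q → M d p → (∀ z, p < z → q < z) → (∀ w, w < q → w < p ∨ w ≤ d) →
    (∀ t, q < t → p < t) ∧ ∀ c, c < d → d < q → ¬ c < p → (∀ w, w < p → w < d) →
      ¬ ∀ t, d < t → t = q ∨ p < t

theorem top {X Y : Type} [Finite X] [PartialOrder X] [LinearOrder Y] (R : Rich X Y)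
    (he : 0 < e X Y) :
    Top (fun x y : X => 2 * e X Y ≤ 3 * N Y x y) := by
  intro p q d i m1 m2 hU ha
  have hne : d ≠ p := by
    rintro rfl
    rw [N_self] at m2
    omega
  have h1 := N_add (Y := Y) i.ne
  have h2 := N_add (Y := Y) hne
  have h3 := one_event (Y := Y) i hU d ha
  exact top_case R i hU ha (by omega) (by omega)

/-- Next to a relation `y < z`, the pairs `(v, y)` and `(z, v)` are light. -/
def Hl (X : Type) [PartialOrder X] : Prop :=
  ∀ y z v : X, y < z → Inc v y → Inc v z → Light v y ∧ Light z v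

variable {X : Type} [PartialOrder X] {M : X → X → Prop}

theorem ldual {p q : X} (h : Light p q) : Light (OrderDual.toDual q) (OrderDual.toDual p) :=
  h.symm.imp (fun h => ⟨h.1, fun _ ha _ hb hab => (h.2 ha hb hab).symm⟩)
    fun h => ⟨h.1, fun _ ha _ hb hab => (h.2 ha hb hab).symm⟩

theorem Hl.dual (h : Hl X) : Hl Xᵒᵈ := fun y z v hyz i1 i2 =>
  have := h z y v hyz (idual i2) (idual i1)
  ⟨ldual (X := X) this.2, ldual (X := X) this.1⟩

variable [Finite X]

theorem chain_eq (h : WMaj M) (T : Top M) (H : Hl X) {p q : X} (i : Inc p q) (hM : M p q)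
    (hU : ∀ z, p < z → q < z) (hc : IsChain (· ≤ ·) {w | w < q ∧ ¬ w < p}) : ∃ a, Mod a q p := by
  obtain ⟨c, ⟨⟨hcq, hcp⟩, hMc⟩, hmin⟩ := (wellFounded_lt (α := X)).has_min
    {c | (c ≤ q ∧ ¬ c < p) ∧ M p c} ⟨q, ⟨le_rfl, fun hh => i.2 hh.le⟩, hM⟩
  have ic : Inc p c := ⟨fun hh => i.1 (hh.trans hcq),
    fun hh => hcp (lt_of_le_of_ne hh fun h1 => i.1 (h1 ▸ hcq))⟩
  have hUc : ∀ z, p < z → c < z := fun z hz => lt_of_le_of_lt hcq (hU z hz)
  by_cases hex : ∃ w, w < c ∧ ¬ w < p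
  · obtain ⟨d, ⟨hdc, hdp⟩, hmax⟩ := (wellFounded_gt (α := X)).has_min
      {w | w < c ∧ ¬ w < p} hex
    have hdq : d < q := lt_of_lt_of_le hdc hcq
    have hne : d ≠ p := fun h1 => i.1 (h1 ▸ hdq.le)
    have hMd : M d p := (h.total d p hne).resolve_right fun h1 =>
      hmin d ⟨⟨hdq.le, hdp⟩, h1⟩ hdc
    have ha : ∀ w, w < c → w < p ∨ w ≤ d := fun w hw => by
      by_cases hwp : w < p
      · exact Or.inl hwp
      · right
        by_cases hwd : w = d
        · exact hwd.le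
        · rcases hc (show w ∈ {w | w < q ∧ ¬ w < p} from ⟨lt_of_lt_of_le hw hcq, hwp⟩)
            (show d ∈ {w | w < q ∧ ¬ w < p} from ⟨hdq, hdp⟩) hwd with h1 | h1
          · exact h1
          · exact absurd (lt_of_le_of_ne h1 (Ne.symm hwd)) (hmax w ⟨hw, hwp⟩)
    obtain ⟨t1, t2⟩ := T p c d ic hMc hMd hUc ha
    obtain rfl : c = q := by
      by_contra hh
      exact i.1 (t1 q (lt_of_le_of_ne hcq hh)).le
    refine ⟨d, h.ea p c d i hM hU fun w hw => ?_⟩
    by_contra hh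
    push Not at hh
    have hwd : w < d := lt_of_le_of_ne ((ha w hw).resolve_left hh.1) hh.2
    rcases (H w d p hwd (lo i hw hh.1) (lo i hdq hdp)).2 with ⟨l1, _⟩ | ⟨l1, l2⟩
    · exact i.1 (l1 c hdq).le
    · refine t2 w hwd hdq hh.1 l1 fun t ht => ?_
      by_contra h5
      push Not at h5
      rcases l2 (show t ∈ {z | d < z ∧ ¬ p < z} from ⟨ht, h5.2⟩)
        (show c ∈ {z | d < z ∧ ¬ p < z} from ⟨hdq, fun hh => i.1 hh.le⟩) h5.1 with h6 | h6
      · rcases ha t (lt_of_le_of_ne h6 h5.1) with h7 | h7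
        · exact hdp (ht.trans h7)
        · exact absurd ht (not_lt_of_ge h7)
      · exact h5.2 (t1 t (lt_of_le_of_ne h6 (Ne.symm h5.1)))
  · exact absurd rfl (h.ea p c p ic hMc hUc fun w hw =>
      Or.inl (by_contra fun hh => hex ⟨w, hw, hh⟩)).ia.ne

/-- All that is used. -/
structure Ctx {X : Type} [PartialOrder X] (M : X → X → Prop) : Prop where
  w : WMaj M
  H : Hl X
  T : Top M
  T' : Top (X := Xᵒᵈ) (fun x y => M (OrderDual.ofDual y) (OrderDual.ofDual x))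

omit [Finite X] in
theorem Ctx.dual (c : Ctx M) :
    Ctx (X := Xᵒᵈ) (fun x y => M (OrderDual.ofDual y) (OrderDual.ofDual x)) :=
  ⟨c.w.dual, c.H.dual, c.T', c.T⟩

theorem light_eq (c : Ctx M) {p q : X} (i : Inc p q) (hM : M p q) (l : Light p q) :
    (∃ a, Mod a q p) ∨ ∃ b, Mod p b q := by
  rcases l with ⟨l1, l2⟩ | ⟨l1, l2⟩
  · exact Or.inl (chain_eq c.w c.T c.H i hM l1 l2)
  · obtain ⟨b, m⟩ := chain_eq (p := OrderDual.toDual q) (q := OrderDual.toDual p) c.w.dual c.T'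
      c.H.dual ⟨i.1, i.2⟩ hM l1 fun _ ha _ hb hab => (l2 ha hb hab).symm
    exact Or.inr ⟨OrderDual.ofDual b, m.dual⟩

theorem gup (c : Ctx M) {y z v : X} (hyz : y < z) (i1 : Inc v y) (i2 : Inc v z) : ¬ M v y := by
  intro hM
  rcases light_eq c i1 hM (c.H y z v hyz i1 i2).1 with ⟨a, m⟩ | ⟨b, m⟩
  · exact i2.1 ((m.u1 z).2 hyz).le
  · exact i2.1 ((m.u2 z).2 (Or.inr hyz)).le

theorem gdown (c : Ctx M) {y w u : X} (hwy : w < y) (i1 : Inc u y) (i2 : Inc u w) : ¬ M y u :=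
  gup (y := OrderDual.toDual y) (z := OrderDual.toDual w) (v := OrderDual.toDual u) c.dual
    hwy ⟨i1.2, i1.1⟩ ⟨i2.2, i2.1⟩

theorem out_up (c : Ctx M) {a q p x : X} (m : Mod a q p) (ia : Inc x a)
    (iq : Inc x q) (ip : Inc x p) : ¬ M p x := by
  intro hM
  have l : Light p x := by
    rcases (c.H a q x m.lt ia iq).2 with ⟨l1, l2⟩ | ⟨l1, l2⟩
    · refine Or.inl ⟨fun t ht => l1 t ((m.u1 t).1 ht), IsChain.mono ?_ l2⟩
      rintro w ⟨h1, h2⟩
      exact ⟨h1, fun hh => ((m.d2 w).1 hh).elim (fun h3 => ia.2 (h3 ▸ h1.le)) h2⟩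
    · refine Or.inr ⟨fun w hw => ((m.d2 w).1 (l1 w hw)).resolve_left fun h1 => ia.2 (h1 ▸ hw.le),
        IsChain.mono ?_ l2⟩
      rintro t ⟨h1, h2⟩
      exact ⟨(m.u1 t).1 h1, h2⟩
  rcases light_eq c ip.symm hM l with ⟨w, m'⟩ | ⟨t, m'⟩
  · have iw : Inc w a := ⟨fun hh => hh.lt_or_eq.elim (fun h3 => m'.ia.1 ((m.d1 w).2 h3).le)
      fun h3 => ia.2 (h3 ▸ m'.lt.le), fun hh => ia.2 (hh.trans m'.lt.le)⟩
    rcases c.w.total a w iw.ne.symm with h1 | h1
    · have m2 := c.w.eb a w q iw.symm h1 (fun s hs => (m.d1 s).1 ((m'.d1 s).2 hs)) fun t ht =>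
        ((m.u2 t).1 ht).symm.imp_left fun h2 => (m'.u2 t).2 (Or.inr h2)
      exact iq.2 ((m2.u1 x).1 m'.lt).le
    · have m2 := c.w.eb w a x iw h1 (fun s hs => (m'.d1 s).1 ((m.d1 s).2 hs)) fun t ht =>
        ((m'.u2 t).1 ht).symm.imp_left fun h2 => (m.u2 t).2 (Or.inr h2)
      exact iq.1 ((m2.u1 q).1 m.lt).le
  · rcases (m'.d2 q).1 ((m.u1 t).1 m'.lt) with h1 | h1
    · exact m.iq.ne h1
    · exact iq.2 h1.le

theorem sbX (c : Ctx M) {p q w₀ : X} (i : Inc p q) (hM : M p q)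
    (hU : ∀ z, p < z → q < z) (h0 : M w₀ p ∨ w₀ = p) (ha : ∀ w, w < q → w < p ∨ w ≤ w₀) :
    ∃ a, Mod a q p := by
  have key : ∀ s, s < q → ¬ s < p → s = w₀ := by
    intro s s1 s2
    by_contra hc
    have j := lo i s1 s2
    have h1 : s < w₀ := lt_of_le_of_ne ((ha s s1).resolve_left s2) hc
    have h2 : M w₀ p := h0.resolve_right fun hh => s2 (hh ▸ h1)
    refine gdown c h1 ⟨fun hh => ?_, fun hh => s2 (lt_of_lt_of_le h1 hh)⟩ j h2
    rcases hh.lt_or_eq with h3 | h3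
    · exact c.w.irrefl _ (c.w.trans _ _ _ h2 (c.w.ext _ _ h3))
    · exact s2 (h3 ▸ h1)
  exact ⟨w₀, c.w.ea p q w₀ i hM hU fun w hw => (em (w < p)).imp_right (key w hw)⟩

end Pool.Agent.FS.StrictLight
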