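import Pool.Agent.FS.StrictLight.Fin

/-! Two classes given by forbidden subposets satisfy the hypothesis of `StrictLight`. -/

namespace Pool.Agent.FS.StrictLight

open Pool.Agent.FS.LightPairs
open Pool.Agent.FS.StrictGap (Cls lo hi)

variable {X : Type} [PartialOrder X]

/-- No induced 3+1, V+2, Λ+2. -/
theorem hl_V (c : Cls X) : Hl X := by
  intro y z v hyz i1 i2
  refine ⟨Or.inr ⟨fun t ht => ?_, fun s hs t ht hst => ?_⟩,
    Or.inl ⟨fun t ht => ?_, fun s hs t ht hst => ?_⟩⟩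
  · by_contra hc
    exact c.h31 t y z v ht hyz ⟨lo i1 ht hc, i1, i2⟩
  · by_contra hc
    push Not at hc
    have j1 := hi i1.symm hs.1 hs.2
    have j2 := hi i1.symm ht.1 ht.2
    exact c.hV v s t y z hs.1 ht.1 hc hyz ⟨i1, i2, j1.symm,
      ⟨fun h => i2.1 (hs.1.le.trans h), fun h => j1.1 (hyz.le.trans h)⟩, j2.symm,
      ⟨fun h => i2.1 (ht.1.le.trans h), fun h => j2.1 (hyz.le.trans h)⟩⟩
  · by_contra hc
    exact c.h31 y z t v hyz ht ⟨i1, i2, hi i2 ht hc⟩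
  · by_contra hc
    push Not at hc
    have j1 := lo i2.symm hs.1 hs.2
    have j2 := lo i2.symm ht.1 ht.2
    exact c.hL v s t y z hs.1 ht.1 hc hyz ⟨i1, i2,
      ⟨fun h => j1.2 (h.trans hyz.le), fun h => i1.2 (h.trans hs.1.le)⟩, j1.symm,
      ⟨fun h => j2.2 (h.trans hyz.le), fun h => i1.2 (h.trans ht.1.le)⟩, j2.symm⟩

/-- No induced 2+2, Y+1, dual Y+1. -/
theorem hl_Y (h22 : ∀ a b c d : X, a < b → c < d → ¬ (Inc a c ∧ Inc a d ∧ Inc b c ∧ Inc b d))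
    (hY : ∀ a a' c z v : X, Inc a a' → a < c → a' < c → c < z →
      ¬ (Inc v a ∧ Inc v a' ∧ Inc v c ∧ Inc v z))
    (hY' : ∀ a a' c z v : X, Inc a a' → c < a → c < a' → z < c →
      ¬ (Inc v a ∧ Inc v a' ∧ Inc v c ∧ Inc v z)) : Hl X := by
  intro y z v hyz i1 i2
  refine ⟨Or.inl ⟨fun t ht => ?_, fun s hs t ht hst => ?_⟩,
    Or.inr ⟨fun t ht => ?_, fun s hs t ht hst => ?_⟩⟩
  · by_contra hc
    have j1 := hi i1.symm ht hc
    exact h22 v t y z ht hyz ⟨i1, i2, j1.symm,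
      fun h => i2.1 (ht.le.trans h), fun h => j1.1 (hyz.le.trans h)⟩
  · by_contra hc
    push Not at hc
    exact hY s t y z v hc hs.1 ht.1 hyz ⟨lo i1 hs.1 hs.2, lo i1 ht.1 ht.2, i1, i2⟩
  · by_contra hc
    have j1 := lo i2.symm ht hc
    exact h22 t v y z ht hyz ⟨⟨fun h => j1.2 (h.trans hyz.le), fun h => i1.2 (h.trans ht.le)⟩,
      j1.symm, i1, i2⟩
  · by_contra hc
    push Not at hc
    exact hY' s t z y v hc hs.1 ht.1 hyz ⟨hi i2 hs.1 hs.2, hi i2 ht.1 ht.2, i2, i1⟩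

end Pool.Agent.FS.StrictLight
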